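import Mathlib
import Pool.Agent.H744R2.KZ.Props

/-!
Task E_kap: Kaplansky's density theorem for self-adjoint operators.
-/

open scoped ComplexOrder InnerProductSpace ComplexConjugate Topology
open Finset Filter

namespace H744R2.KZ

open H759R2.Kad

universe u

namespace EkapAux

noncomputable def fR (t : ℝ) : ℝ := 2 * t * (1 / (1 + t ^ 2))

noncomputable def gR (s : ℝ) : ℝ := s / (1 + √(1 - s ^ 2))

noncomputable def rR (t : ℝ) : ℝ := 1 / (1 + t ^ 2)

theorem rR_cont : Continuous rR := by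
  unfold rR
  refine continuous_const.div (by fun_prop) ?_
  intro t
  positivity

theorem fR_cont : Continuous fR := by
  have h := rR_cont
  unfold rR at h
  unfold fR
  exact (continuous_const.mul continuous_id).mul h

theorem gR_cont : Continuous gR := by
  unfold gR
  refine continuous_id.div (by fun_prop) ?_
  intro t
  positivity

theorem rR_le (t : ℝ) : ‖rR t‖ ≤ 1 := by
  unfold rR
  rw [Real.norm_of_nonneg (by positivity), div_le_one (by positivity)]
  nlinarith [sq_nonneg t]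

theorem fR_le (t : ℝ) : ‖fR t‖ ≤ 1 := by
  unfold fR
  rw [mul_one_div, Real.norm_eq_abs, abs_div, abs_of_pos (by positivity : (0 : ℝ) < 1 + t ^ 2),
    div_le_one (by positivity), abs_le]
  constructor <;> nlinarith [sq_nonneg (t - 1), sq_nonneg (t + 1)]

theorem fg (s : ℝ) (hs : |s| ≤ 1) : fR (gR s) = s := by
  have h1 : 0 ≤ 1 - s ^ 2 := by
    have := (sq_le_one_iff_abs_le_one s).2 hs
    linarith
  have h2 : √(1 - s ^ 2) ^ 2 = 1 - s ^ 2 := Real.sq_sqrt h1
  have h3 : 0 ≤ √(1 - s ^ 2) := Real.sqrt_nonneg _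
  unfold fR gR
  set c := √(1 - s ^ 2) with hc
  have h4 : (1 + c) ≠ 0 := by positivity
  have h5 : 1 + (s / (1 + c)) ^ 2 = 2 / (1 + c) := by
    field_simp
    nlinarith [h2]
  rw [h5]
  field_simp

section alg

variable {A : Type u} [CStarAlgebra A]

theorem r_mul (b : A) (hb : IsSelfAdjoint b) : cfc rR b * (1 + b ^ 2) = 1 := by
  have h1 : cfc (fun t : ℝ => 1 + t ^ 2) b = 1 + b ^ 2 := by
    rw [cfc_add (R := ℝ) b (fun _ => (1 : ℝ)) (fun t => t ^ 2), cfc_pow_id (R := ℝ) b 2,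
      cfc_const_one ℝ b]
  rw [← h1, ← cfc_mul rR (fun t : ℝ => 1 + t ^ 2) b (rR_cont.continuousOn) (by fun_prop)]
  rw [show (fun x : ℝ => rR x * (1 + x ^ 2)) = fun _ => (1 : ℝ) from ?_]
  · exact cfc_const_one ℝ b
  · funext t
    unfold rR
    have : (1 + t ^ 2) ≠ 0 := by positivity
    field_simp

theorem mul_r (b : A) (hb : IsSelfAdjoint b) : (1 + b ^ 2) * cfc rR b = 1 := by
  have h1 : cfc (fun t : ℝ => 1 + t ^ 2) b = 1 + b ^ 2 := by
    rw [cfc_add (R := ℝ) b (fun _ => (1 : ℝ)) (fun t => t ^ 2), cfc_pow_id (R := ℝ) b 2,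
      cfc_const_one ℝ b]
  rw [← h1, ← cfc_mul (fun t : ℝ => 1 + t ^ 2) rR b (by fun_prop) (rR_cont.continuousOn)]
  rw [show (fun x : ℝ => (1 + x ^ 2) * rR x) = fun _ => (1 : ℝ) from ?_]
  · exact cfc_const_one ℝ b
  · funext t
    unfold rR
    have : (1 + t ^ 2) ≠ 0 := by positivity
    field_simp

theorem f_left (b : A) (hb : IsSelfAdjoint b) : cfc fR b = 2 * (b * cfc rR b) := by
  have h : cfc fR b = cfc (fun t : ℝ => 2 * (t * rR t)) b := by
    congr 1
    funext t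
    unfold fR rR
    ring
  rw [h, cfc_const_mul (2 : ℝ) (fun t : ℝ => t * rR t) b
    ((continuous_id.mul rR_cont).continuousOn),
    cfc_mul (fun t : ℝ => t) rR b (by fun_prop) (rR_cont.continuousOn), cfc_id' ℝ b, two_smul,
    two_mul]

theorem f_right (b : A) (hb : IsSelfAdjoint b) : cfc fR b = 2 * (cfc rR b * b) := by
  have h : cfc fR b = cfc (fun t : ℝ => 2 * (rR t * t)) b := by
    congr 1
    funext t
    unfold fR rR
    ring
  rw [h, cfc_const_mul (2 : ℝ) (fun t : ℝ => rR t * t) b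
    ((rR_cont.mul continuous_id).continuousOn),
    cfc_mul rR (fun t : ℝ => t) b (rR_cont.continuousOn) (by fun_prop), cfc_id' ℝ b, two_smul,
    two_mul]

/-- the identity of Kaplansky -/
theorem ident (b y : A) (hb : IsSelfAdjoint b) (hy : IsSelfAdjoint y) :
    cfc fR b - cfc fR y = 2 * (cfc rR b * ((b - y) * cfc rR y)) +
      cfc rR b * (b * ((y - b) * (cfc fR y))) := by
  have h1 := r_mul b hb
  have h2 := mul_r y hy
  have e1 : cfc rR b * (1 + b ^ 2) * (y * cfc rR y) = y * cfc rR y := by rw [h1, one_mul]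
  have e2 : (cfc rR b * b) * ((1 + y ^ 2) * cfc rR y) = cfc rR b * b := by rw [h2, mul_one]
  rw [f_right b hb, f_left y hy]
  nth_rw 1 [← e2]
  nth_rw 1 [← e1]
  noncomm_ring

end alg

theorem spec_le {H : Type u} [NormedAddCommGroup H] [InnerProductSpace ℂ H] [CompleteSpace H]
    (m : H →L[ℂ] H) (hm : ‖m‖ ≤ 1) (s : ℝ) (hs : s ∈ spectrum ℝ m) : |s| ≤ 1 := by
  have h := spectrum.norm_le_norm_mul_of_mem hs
  have h1 : ‖(1 : H →L[ℂ] H)‖ ≤ 1 := ContinuousLinearMap.norm_id_le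
  rw [Real.norm_eq_abs] at h
  calc |s| ≤ ‖m‖ * ‖(1 : H →L[ℂ] H)‖ := h
    _ ≤ 1 * 1 := mul_le_mul hm h1 (norm_nonneg _) zero_le_one
    _ = 1 := one_mul 1

/-- the case of norm at most one -/
theorem unit_case (h1 : E_densa.{u}) (A : Type u) [CStarAlgebra A]
    (H : Type u) [NormedAddCommGroup H] [InnerProductSpace ℂ H] [CompleteSpace H]
    (π : A →⋆ₐ[ℂ] (H →L[ℂ] H)) (m : H →L[ℂ] H) (hm : IsSelfAdjoint m) (hm1 : ‖m‖ ≤ 1)
    (hmc : m ∈ Set.centralizer (Set.centralizer (Set.range π))) (n : ℕ) (ξ : Fin n → H) (ε : ℝ)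
    (hε : 0 < ε) : ∃ a : A, IsSelfAdjoint a ∧ ‖a‖ ≤ 1 ∧ ∀ i, ‖(π a - m) (ξ i)‖ ≤ ε := by
  set y : H →L[ℂ] H := cfc gR m with hy
  have hys : IsSelfAdjoint y := cfc_predicate gR m
  have hfy : cfc fR y = m := by
    rw [hy, ← cfc_comp' fR gR m (fR_cont.continuousOn) (gR_cont.continuousOn) hm]
    have : cfc (fun x => fR (gR x)) m = cfc (fun x : ℝ => x) m := by
      apply cfc_congr
      intro s hs
      exact fg s (spec_le m hm1 s hs)
    rw [this, cfc_id' ℝ m hm]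
  have hyc : y ∈ Set.centralizer (Set.centralizer (Set.range π)) := by
    rw [Set.mem_centralizer_iff]
    intro x hx
    have hc : Commute m x := by
      have := (Set.mem_centralizer_iff.1 hmc) x hx
      exact this.symm
    exact (hc.cfc_real gR).symm
  obtain ⟨a0, ha0, ha0'⟩ := h1 A H π y hys hyc (n + n)
    (Fin.append (fun i => cfc rR y (ξ i)) (fun i => m (ξ i))) (ε / 3) (by positivity)
  have hb : IsSelfAdjoint (π a0) := ha0.map π
  have hπ : π (cfc fR a0) = cfc fR (π a0) := by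
    have hcont : Continuous π :=
      AddMonoidHomClass.continuous_of_bound π 1 (fun x => by
        rw [one_mul]; exact NonUnitalStarAlgHom.norm_apply_le π x)
    exact StarAlgHom.map_cfc π fR a0 (fR_cont.continuousOn) hcont ha0 hb
  have hrb : ‖cfc rR (π a0)‖ ≤ 1 := norm_cfc_le zero_le_one (fun x _ => rR_le x)
  have hfb : ‖cfc fR (π a0)‖ ≤ 1 := norm_cfc_le zero_le_one (fun x _ => fR_le x)
  refine ⟨cfc fR a0, cfc_predicate fR a0, norm_cfc_le zero_le_one (fun x _ => fR_le x), ?_⟩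
  intro i
  have hA : ‖(π a0 - y) (cfc rR y (ξ i))‖ ≤ ε / 3 := by
    have := ha0' (Fin.castAdd n i)
    rwa [Fin.append_left] at this
  have hB : ‖(π a0 - y) (m (ξ i))‖ ≤ ε / 3 := by
    have := ha0' (Fin.natAdd n i)
    rwa [Fin.append_right] at this
  have hid := ident (π a0) y hb hys
  rw [hfy] at hid
  have hrbb : cfc rR (π a0) * (π a0 * ((y - π a0) * m)) =
      -((2⁻¹ : ℂ) • (cfc fR (π a0) * ((π a0 - y) * m))) := by
    rw [f_right (π a0) hb, two_mul, ← two_smul ℂ (cfc rR (π a0) * π a0), smul_mul_assoc, smul_smul]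
    norm_num
    noncomm_ring
  have h2 : (π (cfc fR a0) - m) (ξ i) = (2 : ℂ) • (cfc rR (π a0) ((π a0 - y) (cfc rR y (ξ i)))) -
      (2⁻¹ : ℂ) • (cfc fR (π a0) ((π a0 - y) (m (ξ i)))) := by
    rw [hπ, hid, hrbb, two_mul, ← two_smul ℂ (cfc rR (π a0) * ((π a0 - y) * cfc rR y))]
    simp only [_root_.add_apply, _root_.neg_apply, _root_.smul_apply]
    rw [← sub_eq_add_neg]
    rfl
  rw [h2]
  have n1 : ‖(2 : ℂ) • (cfc rR (π a0) ((π a0 - y) (cfc rR y (ξ i))))‖ ≤ 2 * (ε / 3) := by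
    rw [norm_smul]
    have : ‖cfc rR (π a0) ((π a0 - y) (cfc rR y (ξ i)))‖ ≤ ε / 3 := by
      calc _ ≤ ‖cfc rR (π a0)‖ * ‖(π a0 - y) (cfc rR y (ξ i))‖ :=
            ContinuousLinearMap.le_opNorm _ _
        _ ≤ 1 * (ε / 3) := mul_le_mul hrb hA (norm_nonneg _) zero_le_one
        _ = ε / 3 := one_mul _
    have h22 : ‖(2 : ℂ)‖ = 2 := by norm_num
    rw [h22]
    linarith
  have n2 : ‖(2⁻¹ : ℂ) • (cfc fR (π a0) ((π a0 - y) (m (ξ i))))‖ ≤ ε / 3 := by
    rw [norm_smul]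
    have : ‖cfc fR (π a0) ((π a0 - y) (m (ξ i)))‖ ≤ ε / 3 := by
      calc _ ≤ ‖cfc fR (π a0)‖ * ‖(π a0 - y) (m (ξ i))‖ :=
            ContinuousLinearMap.le_opNorm _ _
        _ ≤ 1 * (ε / 3) := mul_le_mul hfb hB (norm_nonneg _) zero_le_one
        _ = ε / 3 := one_mul _
    have h22 : ‖(2⁻¹ : ℂ)‖ = 2⁻¹ := by norm_num
    rw [h22]
    linarith [norm_nonneg (cfc fR (π a0) ((π a0 - y) (m (ξ i))))]
  calc _ ≤ _ := norm_sub_le _ _
    _ ≤ 2 * (ε / 3) + ε / 3 := add_le_add n1 n2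
    _ = ε := by ring

end EkapAux

open EkapAux in
theorem prove_E_kap (h1 : E_densa.{u}) : E_kap.{u} := by
  intro A _ H _ _ _ π m hm hmc n ξ ε hε
  by_cases h0 : m = 0
  · refine ⟨0, IsSelfAdjoint.zero A, by simp, ?_⟩
    intro i
    rw [map_zero, h0, sub_zero, _root_.zero_apply, norm_zero]
    exact hε.le
  · have hM : 0 < ‖m‖ := norm_pos_iff.2 h0
    set M := ‖m‖ with hMdef
    have hms : IsSelfAdjoint (M⁻¹ • m) := by
      rw [IsSelfAdjoint, star_smul, hm.star_eq, star_trivial]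
    have hmn : ‖M⁻¹ • m‖ ≤ 1 := by
      rw [norm_smul, norm_inv, Real.norm_of_nonneg hM.le, ← hMdef, inv_mul_cancel₀ hM.ne']
    have hmc' : M⁻¹ • m ∈ Set.centralizer (Set.centralizer (Set.range π)) := by
      rw [Set.mem_centralizer_iff] at hmc ⊢
      intro x hx
      rw [mul_smul_comm, smul_mul_assoc, hmc x hx]
    obtain ⟨a, ha, ha1, ha2⟩ := unit_case h1 A H π (M⁻¹ • m) hms hmn hmc' n ξ (ε / M)
      (div_pos hε hM)
    refine ⟨M • a, ?_, ?_, ?_⟩
    · rw [IsSelfAdjoint, star_smul, ha.star_eq, star_trivial]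
    · rw [norm_smul, Real.norm_of_nonneg hM.le]
      calc M * ‖a‖ ≤ M * 1 := mul_le_mul_of_nonneg_left ha1 hM.le
        _ = M := mul_one M
    · intro i
      have e1 : π (M • a) - m = M • (π a - M⁻¹ • m) := by
        rw [smul_sub, smul_smul, mul_inv_cancel₀ hM.ne', one_smul]
        congr 1
        rw [← Complex.coe_smul, ← Complex.coe_smul, map_smul]
      rw [e1, _root_.smul_apply, norm_smul, Real.norm_of_nonneg hM.le]
      calc M * ‖(π a - M⁻¹ • m) (ξ i)‖ ≤ M * (ε / M) :=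
            mul_le_mul_of_nonneg_left (ha2 i) hM.le
        _ = ε := by field_simp

end H744R2.KZ
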