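import Mathlib
import Pool.Agent.H744R2.KZ.Props

/-!
Task F_state: a state attaining the norm which is multiplicative on the centre.
-/

open scoped ComplexOrder InnerProductSpace ComplexConjugate Topology
open Finset Filter

namespace H744R2.KZ

open H759R2.Kad

universe u

namespace FstateAux

set_option linter.unusedSectionVars false

variable {B : Type u} [CStarAlgebra B] [PartialOrder B] [StarOrderedRing B]

theorem smul_mono' (t : ℝ) (ht : 0 ≤ t) {a c : B} (h : a ≤ c) : t • a ≤ t • c :=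
  smul_le_smul_of_nonneg_left h ht

/-- The open cone. -/
def UU (y : B) : Set B := {a | ∃ δ : ℝ, 0 < δ ∧ ∃ s : ℝ, δ • (1 : B) + s • y ≤ a + star a}

theorem UU_convex (y : B) : Convex ℝ (UU y) := by
  intro a ha c hc α β hα hβ hαβ
  obtain ⟨δ, hδ, s, h1⟩ := ha
  obtain ⟨δ', hδ', s', h2⟩ := hc
  refine ⟨α * δ + β * δ', ?_, α * s + β * s', ?_⟩
  · rcases hα.lt_or_eq with h | h
    · have : 0 < α * δ := mul_pos h hδ
      have : 0 ≤ β * δ' := mul_nonneg hβ hδ'.le
      linarith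
    · have hb : β = 1 := by linarith
      rw [← h, hb]
      linarith
  · have e1 := add_le_add (smul_mono' α hα h1) (smul_mono' β hβ h2)
    have e2 : (α * δ + β * δ') • (1 : B) + (α * s + β * s') • y =
        α • (δ • (1 : B) + s • y) + β • (δ' • (1 : B) + s' • y) := by
      rw [smul_add, smul_add, smul_smul, smul_smul, smul_smul, smul_smul, add_smul, add_smul]
      abel
    have e3 : α • a + β • c + star (α • a + β • c) = α • (a + star a) + β • (c + star c) := by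
      rw [star_add, star_smul, star_smul, star_trivial α, star_trivial β, smul_add, smul_add]
      abel
    rw [e2, e3]
    exact e1

theorem UU_open (y : B) : IsOpen (UU y) := by
  rw [Metric.isOpen_iff]
  intro a ha
  obtain ⟨δ, hδ, s, h1⟩ := ha
  refine ⟨δ / 4, by positivity, ?_⟩
  intro c hc
  rw [Metric.mem_ball, dist_eq_norm] at hc
  refine ⟨δ / 2, by positivity, s, ?_⟩
  set h : B := (c - a) + star (c - a) with hh
  have hsa : IsSelfAdjoint h := by
    rw [IsSelfAdjoint, hh, star_add, star_star, add_comm]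
  have hn : ‖h‖ ≤ δ / 2 := by
    calc ‖h‖ ≤ ‖c - a‖ + ‖star (c - a)‖ := norm_add_le _ _
      _ = 2 * ‖c - a‖ := by rw [norm_star]; ring
      _ ≤ δ / 2 := by linarith
  have h2 := hsa.neg_algebraMap_norm_le_self
  have h3 : -((δ / 2) • (1 : B)) ≤ h := by
    refine le_trans ?_ h2
    rw [neg_le_neg_iff, Algebra.algebraMap_eq_smul_one]
    exact smul_le_smul_of_nonneg_right hn zero_le_one
  have e1 : c + star c = (a + star a) + h := by
    rw [hh, star_sub]; abel
  have e2 : (δ / 2) • (1 : B) + s • y = (δ • (1 : B) + s • y) + -((δ / 2) • (1 : B)) := by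
    have : δ • (1 : B) = (δ / 2) • (1 : B) + (δ / 2) • (1 : B) := by
      rw [← add_smul]; congr 1; ring
    rw [this]; abel
  rw [e1, e2]
  exact add_le_add h1 h3

theorem UU_zero (y : B) (hy : ¬ IsUnit y) : (0 : B) ∉ UU y := by
  rintro ⟨δ, hδ, s, h1⟩
  rw [star_zero, add_zero] at h1
  have h2 : δ • (1 : B) ≤ (-s) • y := by
    have := add_le_add_left h1 ((-s) • y)
    have e : (-s) • y + (δ • (1 : B) + s • y) = δ • (1 : B) := by
      rw [neg_smul]; abel
    rw [add_comm, e, zero_add] at this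
    exact this
  have hpos : IsStrictlyPositive (δ • (1 : B)) := by
    rw [IsStrictlyPositive]
    refine ⟨smul_nonneg hδ.le zero_le_one, ?_⟩
    have : IsUnit (algebraMap ℝ B δ) := (isUnit_iff_ne_zero.2 hδ.ne').map (algebraMap ℝ B)
    rwa [Algebra.algebraMap_eq_smul_one] at this
  have hu : IsUnit ((-s) • y) := CStarAlgebra.isUnit_of_le _ h2 hpos
  by_cases hs : s = 0
  · rw [hs, neg_zero, zero_smul] at hu
    have h01 : (0 : B) = 1 := by
      obtain ⟨w, hw⟩ := hu
      have : (w : B) * (↑w⁻¹ : B) = 1 := w.mul_inv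
      rw [hw, zero_mul] at this
      exact this
    apply hy
    have : y = 1 := by
      calc y = 1 * y := (one_mul y).symm
        _ = 0 * y := by rw [h01]
        _ = 0 := zero_mul y
        _ = 1 := h01
    rw [this]
    exact isUnit_one
  · apply hy
    have e : y = ((-s)⁻¹) • ((-s) • y) := by
      rw [smul_smul, inv_mul_cancel₀ (neg_ne_zero.2 hs), one_smul]
    rw [e]
    have e2 : ((-s)⁻¹) • ((-s) • y) = algebraMap ℝ B ((-s)⁻¹) * ((-s) • y) := by
      rw [Algebra.smul_def]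
    rw [e2]
    exact ((isUnit_iff_ne_zero.2 (inv_ne_zero (neg_ne_zero.2 hs))).map (algebraMap ℝ B)).mul hu

theorem exists_state [Nontrivial B] (b : B) : ∃ φ : B →ₗ[ℂ] ℂ, φ 1 = 1 ∧
    (∀ a, 0 ≤ φ (star a * a)) ∧ φ (star b * b) = ((‖b‖ ^ 2 : ℝ) : ℂ) := by
  set x : B := star b * b with hx
  have hx0 : 0 ≤ x := star_mul_self_nonneg b
  have hxs : IsSelfAdjoint x := IsSelfAdjoint.of_nonneg hx0
  set y : B := algebraMap ℝ B ‖x‖ - x with hy
  have hyu : ¬ IsUnit y := CStarAlgebra.norm_mem_spectrum_of_nonneg hx0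
  have hys : IsSelfAdjoint y := (IsSelfAdjoint.algebraMap B (IsSelfAdjoint.all ‖x‖)).sub hxs
  obtain ⟨f, hf⟩ := RCLike.geometric_hahn_banach_open_point (𝕜 := ℂ) (UU_convex y) (UU_open y)
    (UU_zero y hyu)
  rw [map_zero] at hf
  have hf' : ∀ a ∈ UU y, (f a).re < 0 := fun a ha => hf a ha
  -- vanishing
  have key : ∀ v : B, (∃ s : ℝ, v + star v = s • y) → (f v).re = 0 := by
    rintro v ⟨s, hs⟩
    by_contra hne
    have h1 := hf' (1 + ((-(f 1).re / (f v).re : ℝ)) • v) ⟨2, by norm_num,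
      (-(f 1).re / (f v).re) * s, by
        rw [star_add, star_one, star_smul, star_trivial]
        apply le_of_eq
        rw [mul_smul, ← hs, smul_add, two_smul]
        abel⟩
    rw [map_add] at h1
    have h2 : f (((-(f 1).re / (f v).re : ℝ)) • v) = ((-(f 1).re / (f v).re : ℝ) : ℂ) * f v := by
      rw [← Complex.coe_smul, map_smul, smul_eq_mul]
    rw [h2, Complex.add_re, Complex.re_ofReal_mul, div_mul_cancel₀ _ hne] at h1
    linarith
  have h1neg : (f 1).re < 0 := by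
    apply hf'
    refine ⟨2, by norm_num, 0, ?_⟩
    rw [zero_smul, add_zero, star_one, two_smul]
  have him : ∀ a : B, IsSelfAdjoint a → (f a).im = 0 := by
    intro a ha
    have h1 : (f (Complex.I • a)).re = 0 := by
      apply key
      refine ⟨0, ?_⟩
      rw [zero_smul, star_smul, ha.star_eq, Complex.star_def, Complex.conj_I, neg_smul,
        add_neg_cancel]
    rw [map_smul, smul_eq_mul, Complex.I_mul_re] at h1
    linarith
  have hnn : ∀ a : B, 0 ≤ a → (f a).re ≤ 0 := by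
    intro a ha
    by_contra hlt
    push Not at hlt
    have h1 := hf' ((-(f 1).re) • a + ((f a).re) • (1 : B)) ⟨2 * (f a).re, by positivity, 0, by
        rw [zero_smul, add_zero, star_add, star_smul, star_smul, star_one,
          star_trivial (-(f 1).re), star_trivial (f a).re, (IsSelfAdjoint.of_nonneg ha).star_eq]
        have h0 : 0 ≤ (-(f 1).re) • a := smul_nonneg (by linarith) ha
        calc (2 * (f a).re) • (1 : B) = (f a).re • (1 : B) + (f a).re • (1 : B) := by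
              rw [two_mul, add_smul]
          _ ≤ ((-(f 1).re) • a + (f a).re • (1 : B)) + ((-(f 1).re) • a + (f a).re • (1 : B)) :=
              add_le_add (le_add_of_nonneg_left h0) (le_add_of_nonneg_left h0)⟩
    rw [map_add] at h1
    have h2 : f ((-(f 1).re) • a) = ((-(f 1).re : ℝ) : ℂ) * f a := by
      rw [← Complex.coe_smul, map_smul, smul_eq_mul]
    have h3 : f (((f a).re) • (1 : B)) = (((f a).re : ℝ) : ℂ) * f 1 := by
      rw [← Complex.coe_smul, map_smul, smul_eq_mul]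
    rw [h2, h3, Complex.add_re, Complex.re_ofReal_mul, Complex.re_ofReal_mul] at h1
    linarith
  have hf1 : f 1 = (((f 1).re : ℝ) : ℂ) :=
    Complex.ext (by simp) (by simpa using him 1 (IsSelfAdjoint.one B))
  have hf1ne : f 1 ≠ 0 := by
    intro h
    rw [h] at h1neg
    simp at h1neg
  refine ⟨(f 1)⁻¹ • (f : B →ₗ[ℂ] ℂ), ?_, ?_, ?_⟩
  · show (f 1)⁻¹ * f 1 = 1
    exact inv_mul_cancel₀ hf1ne
  · intro a
    show 0 ≤ (f 1)⁻¹ * f (star a * a)
    have ha0 : 0 ≤ star a * a := star_mul_self_nonneg a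
    have e : f (star a * a) = (((f (star a * a)).re : ℝ) : ℂ) :=
      Complex.ext (by simp) (by simpa using him _ (IsSelfAdjoint.of_nonneg ha0))
    rw [e, hf1, ← Complex.ofReal_inv, ← Complex.ofReal_mul]
    have h5 : 0 ≤ ((f 1).re)⁻¹ * (f (star a * a)).re :=
      mul_nonneg_of_nonpos_of_nonpos (inv_nonpos.2 h1neg.le) (hnn _ ha0)
    exact_mod_cast h5
  · show (f 1)⁻¹ * f x = _
    have h6 : (f y).re = 0 := by
      apply key
      refine ⟨2, ?_⟩
      rw [hys.star_eq, two_smul]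
    have h7 : f y = 0 := Complex.ext h6 (him y hys)
    have h8 : f y = (‖x‖ : ℂ) * f 1 - f x := by
      rw [hy, map_sub, Algebra.algebraMap_eq_smul_one, ← Complex.coe_smul, map_smul, smul_eq_mul]
    rw [h7] at h8
    have h9 : f x = (‖x‖ : ℂ) * f 1 := (sub_eq_zero.1 h8.symm).symm
    have h10 : ‖x‖ = ‖b‖ ^ 2 := by
      rw [hx, CStarRing.norm_star_mul_self, sq]
    rw [h9, h10, mul_comm, mul_assoc, mul_inv_cancel₀ hf1ne, mul_one]

/-- States with the value `‖b‖ ^ 2` at `star b * b`. -/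
def IsS (b : B) (φ : B → ℂ) : Prop := (∀ x y, φ (x + y) = φ x + φ y) ∧
  (∀ (c : ℂ) (x : B), φ (c • x) = c * φ x) ∧ (∀ a, 0 ≤ φ (star a * a)) ∧ φ 1 = 1 ∧
  φ (star b * b) = ((‖b‖ ^ 2 : ℝ) : ℂ)

/-- The set of these states. -/
def St (b : B) : Set (B → ℂ) := {φ | IsS b φ}

theorem IsS.nonneg {b : B} {φ : B → ℂ} (h : IsS b φ) {a : B} (ha : 0 ≤ a) : 0 ≤ φ a := by
  obtain ⟨c, rfl⟩ := CStarAlgebra.nonneg_iff_eq_star_mul_self.1 ha
  exact h.2.2.1 c

theorem IsS.neg {b : B} {φ : B → ℂ} (h : IsS b φ) (a : B) : φ (-a) = -φ a := by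
  have := h.2.1 (-1) a
  rwa [neg_one_smul, neg_one_mul] at this

theorem IsS.rsmul {b : B} {φ : B → ℂ} (h : IsS b φ) (r : ℝ) (a : B) :
    φ (r • a) = (r : ℂ) * φ a := by
  rw [← Complex.coe_smul, h.2.1]

theorem IsS.sub {b : B} {φ : B → ℂ} (h : IsS b φ) (a c : B) : φ (a - c) = φ a - φ c := by
  rw [sub_eq_add_neg, h.1, h.neg, sub_eq_add_neg]

theorem IsS.sa {b : B} {φ : B → ℂ} (h : IsS b φ) {a : B} (ha : IsSelfAdjoint a) :
    (φ a).im = 0 ∧ |(φ a).re| ≤ ‖a‖ := by
  have h1 : 0 ≤ φ (algebraMap ℝ B ‖a‖ - a) :=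
    h.nonneg (sub_nonneg.2 ha.le_algebraMap_norm_self)
  have h2 : 0 ≤ φ (a + algebraMap ℝ B ‖a‖) := by
    apply h.nonneg
    have := ha.neg_algebraMap_norm_le_self
    rw [neg_le_iff_add_nonneg] at this
    rwa [add_comm] at this ⊢
  rw [h.sub, Algebra.algebraMap_eq_smul_one, h.rsmul, h.2.2.2.1, mul_one] at h1
  rw [h.1, Algebra.algebraMap_eq_smul_one, h.rsmul, h.2.2.2.1, mul_one] at h2
  rw [Complex.nonneg_iff] at h1 h2
  simp only [Complex.sub_re, Complex.sub_im, Complex.add_re, Complex.add_im, Complex.ofReal_re,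
    Complex.ofReal_im] at h1 h2
  refine ⟨by linarith [h1.2], ?_⟩
  rw [abs_le]
  constructor <;> linarith [h1.1, h2.1]

theorem half_sa (a : B) : IsSelfAdjoint ((1 / 2 : ℂ) • (a + star a)) := by
  rw [IsSelfAdjoint, star_smul, star_add, star_star, add_comm (star a) a]
  congr 1
  norm_num

theorem half_sa' (a : B) : IsSelfAdjoint ((-Complex.I / 2 : ℂ) • (a - star a)) := by
  rw [IsSelfAdjoint, star_smul, star_sub, star_star]
  have : star (-Complex.I / 2 : ℂ) = -(-Complex.I / 2) := by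
    simp
    ring
  rw [this, neg_smul, ← smul_neg, neg_sub]

theorem decomp (a : B) : a = (1 / 2 : ℂ) • (a + star a) +
    Complex.I • ((-Complex.I / 2 : ℂ) • (a - star a)) := by
  have hI : Complex.I * (-Complex.I / 2) = 1 / 2 := by
    have := Complex.I_mul_I
    linear_combination (-1 / 2) * this
  rw [smul_smul, hI, ← smul_add]
  have : a + star a + (a - star a) = (2 : ℂ) • a := by
    rw [two_smul]; abel
  rw [this, smul_smul]
  norm_num

theorem IsS.bound {b : B} {φ : B → ℂ} (h : IsS b φ) (a : B) : ‖φ a‖ ≤ 2 * ‖a‖ := by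
  have key : ∀ c : B, IsSelfAdjoint c → ‖φ c‖ ≤ ‖c‖ := by
    intro c hc
    obtain ⟨h1, h2⟩ := h.sa hc
    have : φ c = (((φ c).re : ℝ) : ℂ) := Complex.ext (by simp) (by simpa using h1)
    rw [this, Complex.norm_real]
    exact h2
  have e := decomp a
  have h1 := key _ (half_sa a)
  have h2 := key _ (half_sa' a)
  have h3 : ‖(1 / 2 : ℂ) • (a + star a)‖ ≤ ‖a‖ := by
    rw [norm_smul]
    have h4 : ‖a + star a‖ ≤ ‖a‖ + ‖a‖ := by
      calc _ ≤ ‖a‖ + ‖star a‖ := norm_add_le _ _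
        _ = _ := by rw [norm_star]
    have h5 : ‖(1 / 2 : ℂ)‖ = 1 / 2 := by norm_num
    rw [h5]
    linarith
  have h6 : ‖(-Complex.I / 2 : ℂ) • (a - star a)‖ ≤ ‖a‖ := by
    rw [norm_smul]
    have h4 : ‖a - star a‖ ≤ ‖a‖ + ‖a‖ := by
      calc _ ≤ ‖a‖ + ‖star a‖ := norm_sub_le _ _
        _ = _ := by rw [norm_star]
    have h5 : ‖(-Complex.I / 2 : ℂ)‖ = 1 / 2 := by
      rw [norm_div, norm_neg, Complex.norm_I]; norm_num
    rw [h5]
    linarith
  have e2 : φ a = φ ((1 / 2 : ℂ) • (a + star a)) +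
      Complex.I * φ ((-Complex.I / 2 : ℂ) • (a - star a)) := by
    nth_rw 1 [e]
    rw [h.1, h.2.1 Complex.I]
  rw [e2]
  calc _ ≤ ‖φ ((1 / 2 : ℂ) • (a + star a))‖ +
        ‖Complex.I * φ ((-Complex.I / 2 : ℂ) • (a - star a))‖ := norm_add_le _ _
    _ = ‖φ ((1 / 2 : ℂ) • (a + star a))‖ + ‖φ ((-Complex.I / 2 : ℂ) • (a - star a))‖ := by
        rw [norm_mul, Complex.norm_I, one_mul]
    _ ≤ ‖a‖ + ‖a‖ := add_le_add (h1.trans h3) (h2.trans h6)
    _ = 2 * ‖a‖ := by ring

theorem St_closed (b : B) : IsClosed (St b) := by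
  have h1 : IsClosed {φ : B → ℂ | ∀ x y, φ (x + y) = φ x + φ y} := by
    simp only [Set.ofPred_forall]
    refine isClosed_iInter fun x => isClosed_iInter fun y => ?_
    exact isClosed_eq (continuous_apply (x + y))
      (by
        have h1 : Continuous (fun φ : B → ℂ => φ x) := continuous_apply x
        have h2 : Continuous (fun φ : B → ℂ => φ y) := continuous_apply y
        exact h1.add h2)
  have h2 : IsClosed {φ : B → ℂ | ∀ (c : ℂ) (x : B), φ (c • x) = c * φ x} := by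
    simp only [Set.ofPred_forall]
    refine isClosed_iInter fun c => isClosed_iInter fun x => ?_
    exact isClosed_eq (continuous_apply _) (continuous_const.mul (continuous_apply _))
  have h3 : IsClosed {φ : B → ℂ | ∀ a, 0 ≤ φ (star a * a)} := by
    simp only [Set.ofPred_forall]
    refine isClosed_iInter fun a => ?_
    exact isClosed_le continuous_const (continuous_apply _)
  have h4 : IsClosed {φ : B → ℂ | φ 1 = 1} := isClosed_eq (continuous_apply _) continuous_const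
  have h5 : IsClosed {φ : B → ℂ | φ (star b * b) = ((‖b‖ ^ 2 : ℝ) : ℂ)} :=
    isClosed_eq (continuous_apply _) continuous_const
  exact h1.inter (h2.inter (h3.inter (h4.inter h5)))

theorem St_compact (b : B) : IsCompact (St b) := by
  have h : IsCompact (Set.pi Set.univ (fun a : B => Metric.closedBall (0 : ℂ) (2 * ‖a‖))) :=
    isCompact_univ_pi (fun a => isCompact_closedBall _ _)
  refine h.of_isClosed_subset (St_closed b) ?_
  intro φ hφ a _
  rw [mem_closedBall_zero_iff]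
  exact IsS.bound hφ a

theorem St_nonempty [Nontrivial B] (b : B) : (St b).Nonempty := by
  obtain ⟨φ, h1, h2, h3⟩ := exists_state b
  exact ⟨φ, map_add φ, fun c x => by rw [map_smul, smul_eq_mul], h2, h1, h3⟩

theorem pos_central {b : B} {φ : B → ℂ} (h : IsS b φ) {w : B} (hw : ∀ a, w * a = a * w)
    (hw0 : 0 ≤ w) {c : B} (hc : 0 ≤ c) : 0 ≤ φ (w * c) := by
  obtain ⟨s, hs⟩ := CStarAlgebra.nonneg_iff_eq_star_mul_self.1 hw0
  obtain ⟨a, ha⟩ := CStarAlgebra.nonneg_iff_eq_star_mul_self.1 hc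
  have e : w * c = star (s * a) * (s * a) := by
    rw [ha, ← mul_assoc, hw, star_mul, mul_assoc (star a), hs]
    noncomm_ring
  rw [e]
  exact h.2.2.1 _

/-- the part of a state under a central element -/
theorem part_mem {b : B} {φ : B → ℂ} (h : IsS b φ) {w : B} (hw : ∀ a, w * a = a * w)
    (hw0 : 0 ≤ w) {t : ℝ} (ht : 0 < t) (hφ : φ w = t)
    (hb : φ (w * (star b * b)) = ((t * ‖b‖ ^ 2 : ℝ) : ℂ)) :
    (fun a => ((t⁻¹ : ℝ) : ℂ) * φ (w * a)) ∈ St b := by
  have ht' : (t : ℂ) ≠ 0 := by exact_mod_cast ht.ne'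
  refine ⟨?_, ?_, ?_, ?_, ?_⟩
  · intro x y
    show ((t⁻¹ : ℝ) : ℂ) * φ (w * (x + y)) = _
    rw [mul_add, h.1, mul_add]
  · intro c x
    show ((t⁻¹ : ℝ) : ℂ) * φ (w * (c • x)) = _
    rw [mul_smul_comm, h.2.1]
    ring
  · intro a
    show 0 ≤ ((t⁻¹ : ℝ) : ℂ) * φ (w * (star a * a))
    have h1 := pos_central h hw hw0 (star_mul_self_nonneg a)
    have h2 : (0 : ℂ) ≤ ((t⁻¹ : ℝ) : ℂ) := by exact_mod_cast (inv_pos.2 ht).le
    exact mul_nonneg h2 h1
  · show ((t⁻¹ : ℝ) : ℂ) * φ (w * 1) = 1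
    rw [mul_one, hφ, Complex.ofReal_inv, inv_mul_cancel₀ ht']
  · show ((t⁻¹ : ℝ) : ℂ) * φ (w * (star b * b)) = _
    rw [hb, ← Complex.ofReal_mul]
    congr 1
    field_simp

theorem key_central {b : B} {φ : B → ℂ} (h : φ ∈ Set.extremePoints ℝ (St b)) {w : B}
    (hw : ∀ a, w * a = a * w) (hw0 : 0 ≤ w) (hw1 : 0 ≤ 1 - w) {t : ℝ} (ht : 0 < t) (ht1 : t < 1)
    (hφ : φ w = t) (a : B) : φ (w * a) = t * φ a := by
  rw [mem_extremePoints] at h
  obtain ⟨hS', hE⟩ := h
  have hS : IsS b φ := hS'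
  have ht' : (t : ℂ) ≠ 0 := by exact_mod_cast ht.ne'
  have ht1' : ((1 - t : ℝ) : ℂ) ≠ 0 := by
    have : (1 - t : ℝ) ≠ 0 := by linarith
    exact_mod_cast this
  have hw' : ∀ a, (1 - w) * a = a * (1 - w) := by
    intro a
    rw [sub_mul, mul_sub, one_mul, mul_one, hw]
  have hφ' : φ (1 - w) = ((1 - t : ℝ) : ℂ) := by
    rw [hS.sub, hS.2.2.2.1, hφ]; push_cast; ring
  set x := star b * b with hx
  have hxn : ‖x‖ = ‖b‖ ^ 2 := by
    rw [hx, CStarRing.norm_star_mul_self, sq]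
  have hx0 : 0 ≤ x := star_mul_self_nonneg b
  have hc : 0 ≤ (‖b‖ ^ 2) • (1 : B) - x := by
    have := (IsSelfAdjoint.of_nonneg hx0).le_algebraMap_norm_self
    rw [hxn, Algebra.algebraMap_eq_smul_one] at this
    exact sub_nonneg.2 this
  have p1 := pos_central hS hw hw0 hc
  have p2 := pos_central hS hw' hw1 hc
  have e1 : φ (w * ((‖b‖ ^ 2) • (1 : B) - x)) = ((‖b‖ ^ 2 : ℝ) : ℂ) * t - φ (w * x) := by
    rw [mul_sub, hS.sub, mul_smul_comm, mul_one, hS.rsmul, hφ]
  have e2 : φ ((1 - w) * ((‖b‖ ^ 2) • (1 : B) - x)) =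
      ((‖b‖ ^ 2 : ℝ) : ℂ) * ((1 - t : ℝ) : ℂ) - φ ((1 - w) * x) := by
    rw [mul_sub, hS.sub, mul_smul_comm, mul_one, hS.rsmul, hφ']
  have e3 : φ (w * x) + φ ((1 - w) * x) = ((‖b‖ ^ 2 : ℝ) : ℂ) := by
    rw [← hS.1, ← add_mul, add_sub_cancel, one_mul]
    exact hS.2.2.2.2
  rw [e1] at p1
  rw [e2] at p2
  rw [Complex.nonneg_iff] at p1 p2
  have e3r := congrArg Complex.re e3
  have e3i := congrArg Complex.im e3
  simp only [Complex.sub_re, Complex.sub_im, Complex.add_re, Complex.add_im,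
    Complex.re_ofReal_mul, Complex.im_ofReal_mul, Complex.ofReal_re, Complex.ofReal_im] at p1 p2 e3r e3i
  have q1 : φ (w * x) = ((t * ‖b‖ ^ 2 : ℝ) : ℂ) := by
    apply Complex.ext
    · rw [Complex.ofReal_re]
      nlinarith [p1.1, p2.1, e3r]
    · rw [Complex.ofReal_im]
      nlinarith [p1.2, p2.2, e3i]
  have q2 : φ ((1 - w) * x) = (((1 - t) * ‖b‖ ^ 2 : ℝ) : ℂ) := by
    have : φ ((1 - w) * x) = ((‖b‖ ^ 2 : ℝ) : ℂ) - φ (w * x) := by rw [← e3]; ring
    rw [this, q1]
    push_cast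
    ring
  have m1 := part_mem hS hw hw0 ht hφ q1
  have m2 := part_mem hS hw' hw1 (by linarith : 0 < 1 - t) hφ' q2
  have hseg : φ ∈ openSegment ℝ (fun a => ((t⁻¹ : ℝ) : ℂ) * φ (w * a))
      (fun a => (((1 - t)⁻¹ : ℝ) : ℂ) * φ ((1 - w) * a)) := by
    refine ⟨t, 1 - t, ht, by linarith, by ring, ?_⟩
    funext a
    show t • (((t⁻¹ : ℝ) : ℂ) * φ (w * a)) + (1 - t) • ((((1 - t)⁻¹ : ℝ) : ℂ) * φ ((1 - w) * a)) =
      φ a
    rw [Complex.real_smul, Complex.real_smul, ← mul_assoc, ← mul_assoc, ← Complex.ofReal_mul,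
      ← Complex.ofReal_mul, mul_inv_cancel₀ ht.ne', mul_inv_cancel₀ (by linarith : (1 - t) ≠ 0),
      Complex.ofReal_one, one_mul, one_mul, ← hS.1, ← add_mul, add_sub_cancel, one_mul]
  obtain ⟨r1, -⟩ := hE _ m1 _ m2 hseg
  have r2 := congrFun r1 a
  have r3 : ((t⁻¹ : ℝ) : ℂ) * φ (w * a) = φ a := r2
  rw [← r3, ← mul_assoc, ← Complex.ofReal_mul, mul_inv_cancel₀ ht.ne', Complex.ofReal_one, one_mul]

theorem sa_central {b : B} {φ : B → ℂ} (h : φ ∈ Set.extremePoints ℝ (St b)) {z : B}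
    (hz : ∀ a, z * a = a * z) (hzs : IsSelfAdjoint z) (a : B) : φ (z * a) = φ z * φ a := by
  have hS : IsS b φ := (mem_extremePoints.1 h).1
  obtain ⟨hi, hr⟩ := hS.sa hzs
  have hφz : φ z = (((φ z).re : ℝ) : ℂ) := Complex.ext (by simp) (by simpa using hi)
  set c : ℝ := ‖z‖ + 1 with hc
  have hc0 : 0 < c := by positivity
  set w : B := (1 / 2 : ℝ) • (1 : B) + (1 / (4 * c)) • z with hw
  have hwc : ∀ a, w * a = a * w := by
    intro a
    rw [hw, add_mul, mul_add a, smul_mul_assoc, smul_mul_assoc, mul_smul_comm, mul_smul_comm, hz,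
      one_mul, mul_one]
  have hz1 : -(c • (1 : B)) ≤ z := by
    have := hzs.neg_algebraMap_norm_le_self
    refine le_trans ?_ this
    rw [neg_le_neg_iff, Algebra.algebraMap_eq_smul_one]
    exact smul_le_smul_of_nonneg_right (by rw [hc]; linarith) zero_le_one
  have hz2 : z ≤ c • (1 : B) := by
    have := hzs.le_algebraMap_norm_self
    refine le_trans this ?_
    rw [Algebra.algebraMap_eq_smul_one]
    exact smul_le_smul_of_nonneg_right (by rw [hc]; linarith) zero_le_one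
  have h4c : 0 ≤ 1 / (4 * c) := by positivity
  have hw0 : 0 ≤ w := by
    have h1 := smul_mono' (1 / (4 * c)) h4c hz1
    have h2 : (1 / (4 * c)) • (-(c • (1 : B))) = -((1 / 4 : ℝ) • (1 : B)) := by
      rw [smul_neg, smul_smul]
      congr 2
      field_simp
    rw [h2] at h1
    have h3 : (1 / 4 : ℝ) • (1 : B) ≤ w := by
      rw [hw]
      calc (1 / 4 : ℝ) • (1 : B) = (1 / 2 : ℝ) • (1 : B) + -((1 / 4 : ℝ) • (1 : B)) := by
            rw [← sub_eq_add_neg, ← sub_smul]; norm_num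
        _ ≤ _ := add_le_add le_rfl h1
    exact le_trans (smul_nonneg (by norm_num) zero_le_one) h3
  have hw1 : 0 ≤ 1 - w := by
    have h1 := smul_mono' (1 / (4 * c)) h4c hz2
    have h2 : (1 / (4 * c)) • (c • (1 : B)) = (1 / 4 : ℝ) • (1 : B) := by
      rw [smul_smul]
      congr 1
      field_simp
    rw [h2] at h1
    have h3 : w ≤ (3 / 4 : ℝ) • (1 : B) := by
      rw [hw]
      calc _ ≤ (1 / 2 : ℝ) • (1 : B) + (1 / 4 : ℝ) • (1 : B) := add_le_add le_rfl h1
        _ = (3 / 4 : ℝ) • (1 : B) := by rw [← add_smul]; norm_num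
    have h4 : (3 / 4 : ℝ) • (1 : B) ≤ 1 := by
      calc (3 / 4 : ℝ) • (1 : B) ≤ (1 : ℝ) • (1 : B) :=
            smul_le_smul_of_nonneg_right (by norm_num) zero_le_one
        _ = 1 := one_smul _ _
    exact sub_nonneg.2 (h3.trans h4)
  set t : ℝ := 1 / 2 + (1 / (4 * c)) * (φ z).re with ht
  have hφw : φ w = (t : ℂ) := by
    rw [hw, hS.1, hS.rsmul, hS.rsmul, hS.2.2.2.1, ht]
    nth_rw 1 [hφz]
    push_cast
    ring
  have hrc : |(φ z).re| ≤ c := by linarith
  have h5 : |(1 / (4 * c)) * (φ z).re| ≤ 1 / 4 := by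
    rw [abs_mul, abs_of_nonneg h4c]
    calc 1 / (4 * c) * |(φ z).re| ≤ 1 / (4 * c) * c := mul_le_mul_of_nonneg_left hrc h4c
      _ = 1 / 4 := by field_simp
  rw [abs_le] at h5
  have k1 := key_central h hwc hw0 hw1 (t := t) (by rw [ht]; linarith [h5.1])
    (by rw [ht]; linarith [h5.2]) hφw a
  have e1 : w * a = (1 / 2 : ℝ) • a + (1 / (4 * c)) • (z * a) := by
    rw [hw, add_mul, smul_mul_assoc, smul_mul_assoc, one_mul]
  rw [e1, hS.1, hS.rsmul, hS.rsmul, ht] at k1
  have hc' : (c : ℂ) ≠ 0 := by exact_mod_cast hc0.ne'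
  have k2 : (((1 / (4 * c) : ℝ)) : ℂ) * φ (z * a) = ((1 / (4 * c) : ℝ) : ℂ) * (φ z * φ a) := by
    rw [hφz]
    push_cast at k1 ⊢
    linear_combination k1
  have k3 : ((1 / (4 * c) : ℝ) : ℂ) ≠ 0 := by
    have : (1 / (4 * c) : ℝ) ≠ 0 := by positivity
    exact_mod_cast this
  exact mul_left_cancel₀ k3 k2

theorem star_central {z : B} (hz : ∀ a, z * a = a * z) (a : B) : star z * a = a * star z := by
  have := congrArg star (hz (star a))
  rw [star_mul, star_mul, star_star] at this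
  exact this.symm

theorem central {b : B} {φ : B → ℂ} (h : φ ∈ Set.extremePoints ℝ (St b)) {z : B}
    (hz : ∀ a, z * a = a * z) (a : B) : φ (z * a) = φ z * φ a := by
  have hS : IsS b φ := (mem_extremePoints.1 h).1
  have c1 : ∀ a, ((1 / 2 : ℂ) • (z + star z)) * a = a * ((1 / 2 : ℂ) • (z + star z)) := by
    intro a
    rw [smul_mul_assoc, mul_smul_comm, add_mul, mul_add, hz, star_central hz]
  have c2 : ∀ a, ((-Complex.I / 2 : ℂ) • (z - star z)) * a =
      a * ((-Complex.I / 2 : ℂ) • (z - star z)) := by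
    intro a
    rw [smul_mul_assoc, mul_smul_comm, sub_mul, mul_sub, hz, star_central hz]
  have k1 := sa_central h c1 (half_sa z) a
  have k2 := sa_central h c2 (half_sa' z) a
  have e := decomp z
  have e2 : φ z = φ ((1 / 2 : ℂ) • (z + star z)) +
      Complex.I * φ ((-Complex.I / 2 : ℂ) • (z - star z)) := by
    nth_rw 1 [e]
    rw [hS.1, hS.2.1 Complex.I]
  have e3 : z * a = ((1 / 2 : ℂ) • (z + star z)) * a +
      Complex.I • (((-Complex.I / 2 : ℂ) • (z - star z)) * a) := by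
    nth_rw 1 [e]
    rw [add_mul, smul_mul_assoc Complex.I]
  rw [e3, hS.1, hS.2.1 Complex.I, k1, k2, e2]
  ring

end FstateAux

open FstateAux in
theorem prove_F_state : F_state.{u} := by
  intro B _ _ _ _ b
  obtain ⟨φ, hφ⟩ := (St_compact b).extremePoints_nonempty (St_nonempty b)
  have hS : IsS b φ := (mem_extremePoints.1 hφ).1
  refine ⟨{ toFun := φ, map_add' := hS.1, map_smul' := fun c x => hS.2.1 c x },
    hS.2.2.2.1, hS.2.2.1, hS.2.2.2.2, ?_⟩
  intro z hz a
  exact central hφ hz a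

end H744R2.KZ
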